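import Mathlib

/-!
# Rotkiewicz's question on the counts `N(p)` and `N-bar(p)`

For an odd integer `p > 1` and `0 < n < p` write `p / n` as a finite simple continued fraction
`[c₁; c₂, …, c_λ]` with positive integer entries and last entry `c_λ > 1`.  `N p` counts the `n`
with `(n / p) = (-1) ^ λ` and `Nbar p` those with `(n / p) = (-1) ^ (λ + 1)`, where `(n / p)` is
the Jacobi symbol.  We prove that `N p / Nbar p → 1` as `p → ∞` through the odd integers.

Outline of the proof.
* Parity of the length: for `n` coprime to `p`, `λ` is odd iff the least positive inverse of `n`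
  modulo `p` is smaller than `p / 2` (`expansion_parity`).  Hence `Nbar p - N p = D p`, where
  `D p = ∑ χ(v) r(v)` over the residues `v`, `χ` the Jacobi symbol and `r(v) = 1` if `v < p / 2`,
  `r(v) = -1` otherwise, while `Nbar p + N p = φ(p)`.
* Since `χ` is multiplicative, `∑ χ(v) r(2 ^ j v) = χ(2) ^ j D p` for all `j`; the functions
  `v ↦ r(2 ^ j v)`, `j < J`, are nearly orthogonal (they are the binary digits of `v / p`), so
  Cauchy-Schwarz gives `J * (D p) ^ 2 ≤ φ(p) * (p + 2 ^ J)` (`D_bound`).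
* For odd `p` one has `p ^ 2 ≤ (2 ω(p) + 1) φ(p) ^ 2` (`totient_bound`), so with `J = log₂ p` we
  get `(D p / φ(p)) ^ 4 ≤ 12 / log₂ p` (`D_pow_four`), which tends to `0`.
-/

set_option autoImplicit false

namespace Pool.Agent.Results.MP_7c82b6_nt.RotkiewiczLimit

open Finset

/-! ## Definitions used in the statement -/

/-- The value of a finite simple continued fraction given by the list `[c₁, …, c_λ]` of its
entries: `c₁ + 1 / (c₂ + 1 / (… + 1 / c_λ))`.  (The empty list has value `0`, and `0⁻¹ = 0`,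
so that `cfVal [c] = c`.) -/
def cfVal : List ℕ → ℚ
  | [] => 0
  | c :: cs => (c : ℚ) + (cfVal cs)⁻¹

/-- `IsExpansion p n c`: the list `c = [c₁, …, c_λ]` is the normalised continued fraction
expansion of `p / n`, i.e. it is nonempty, all its entries are positive, its last entry is
greater than `1`, and its value is `p / n`.  See `expansion_exists` and `expansion_unique` for
its existence (for `0 < n < p`) and uniqueness. -/
structure IsExpansion (p n : ℕ) (c : List ℕ) : Prop where
  ne_nil : c ≠ []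
  pos : ∀ x ∈ c, 0 < x
  last : 1 < c.getLast ne_nil
  val : cfVal c = (p : ℚ) / (n : ℚ)

/-- The set `M_p` of the integers `0 < n < p` with `(n / p) = (-1) ^ λ(n)`, where `λ(n)` is the
length of the normalised continued fraction expansion of `p / n`. -/
def M (p : ℕ) : Set ℕ :=
  {n | 0 < n ∧ n < p ∧ ∃ c : List ℕ, IsExpansion p n c ∧ jacobiSym n p = (-1) ^ c.length}

/-- The set of the integers `0 < n < p` with `(n / p) = (-1) ^ (λ(n) + 1)`. -/
def Mbar (p : ℕ) : Set ℕ :=
  {n | 0 < n ∧ n < p ∧ ∃ c : List ℕ, IsExpansion p n c ∧ jacobiSym n p = (-1) ^ (c.length + 1)}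

/-- `N(p)`, the number of elements of `M_p`. -/
noncomputable def N (p : ℕ) : ℕ := (M p).ncard

/-- `N-bar(p)`, the number of elements of `Mbar p`. -/
noncomputable def Nbar (p : ℕ) : ℕ := (Mbar p).ncard

/-! ## The near-orthogonality of the binary digits -/

/-- Rademacher-type sums -/
def G (ε : ℤ) : ℕ → ℕ → ℤ
  | 0, _ => 0
  | J + 1, t => G ε J (t / 2) + ε ^ J * (-1) ^ (t % 2)

lemma sum_range_two_mul (f : ℕ → ℤ) (n : ℕ) :
    ∑ t ∈ range (2 * n), f t = ∑ s ∈ range n, (f (2 * s) + f (2 * s + 1)) := by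
  induction n with
  | zero => simp
  | succ n ih =>
    rw [show 2 * (n + 1) = 2 * n + 1 + 1 by ring, sum_range_succ, sum_range_succ, ih,
      sum_range_succ]
    ring

lemma G_sq (ε : ℤ) (hε : ε ^ 2 = 1) (J : ℕ) :
    ∑ t ∈ range (2 ^ J), (G ε J t) ^ 2 = J * 2 ^ J := by
  induction J with
  | zero => simp [G]
  | succ J ih =>
    have h1 : (2 : ℕ) ^ (J + 1) = 2 * 2 ^ J := by ring
    rw [h1, sum_range_two_mul]
    have h2 : ∀ s ∈ range (2 ^ J), (G ε (J + 1) (2 * s)) ^ 2 + (G ε (J + 1) (2 * s + 1)) ^ 2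
        = 2 * (G ε J s) ^ 2 + 2 := by
      intro s _
      have e1 : 2 * s / 2 = s := by omega
      have e2 : (2 * s + 1) / 2 = s := by omega
      have e3 : 2 * s % 2 = 0 := by omega
      have e4 : (2 * s + 1) % 2 = 1 := by omega
      simp only [G, e1, e2, e3, e4]
      have h3 : (ε ^ J) ^ 2 = 1 := by
        rw [← pow_mul, mul_comm, pow_mul, hε, one_pow]
      linear_combination 2 * h3
    rw [sum_congr rfl h2, sum_add_distrib, ← mul_sum, ih]
    simp
    ring

/-- half-interval sign -/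
def r (p w : ℕ) : ℤ := if 2 * w < p then 1 else -1

lemma G_eq (ε : ℤ) (p : ℕ) (hp : 0 < p) (v : ℕ) (J : ℕ) :
    G ε J (2 ^ J * v / p) = ∑ j ∈ range J, ε ^ j * r p (2 ^ j * v % p) := by
  induction J with
  | zero => simp [G]
  | succ J ih =>
    rw [sum_range_succ, ← ih]
    simp only [G]
    have e1 : 2 ^ (J + 1) * v / p / 2 = 2 ^ J * v / p := by
      rw [Nat.div_div_eq_div_mul, pow_succ, mul_comm (2 ^ J) 2, mul_assoc, mul_comm p 2,
        Nat.mul_div_mul_left _ _ (by norm_num)]
    have hw : 2 ^ J * v % p < p := Nat.mod_lt _ hp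
    have hdecomp : 2 ^ (J + 1) * v = p * (2 * (2 ^ J * v / p)) + 2 * (2 ^ J * v % p) := by
      have := Nat.div_add_mod (2 ^ J * v) p
      calc 2 ^ (J + 1) * v = 2 * (2 ^ J * v) := by ring
        _ = 2 * (p * (2 ^ J * v / p) + 2 ^ J * v % p) := by rw [this]
        _ = _ := by ring
    have e2 : (-1 : ℤ) ^ (2 ^ (J + 1) * v / p % 2) = r p (2 ^ J * v % p) := by
      rw [hdecomp, Nat.mul_add_div hp]
      unfold r
      split_ifs with h
      · rw [Nat.div_eq_of_lt h]; simp
      · have : 2 * (2 ^ J * v % p) / p = 1 := by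
          rw [Nat.div_eq_iff hp]; omega
        rw [this]
        have : (2 * (2 ^ J * v / p) + 1) % 2 = 1 := by omega
        rw [this]; simp
    rw [e1, e2]

lemma fiber_card (p J t : ℕ) :
    2 ^ J * ((range p).filter (fun v => 2 ^ J * v / p = t)).card ≤ p + 2 ^ J := by
  rcases Nat.eq_zero_or_pos p with rfl | hp
  · simp
  set S := (range p).filter (fun v => 2 ^ J * v / p = t) with hS
  rcases S.eq_empty_or_nonempty with he | hne
  · rw [he]; simp
  set a := S.min' hne with ha
  have haS : a ∈ S := S.min'_mem hne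
  have hsub : S ⊆ Finset.Ico a (a + (p / 2 ^ J + 1)) := by
    intro v hv
    rw [Finset.mem_Ico]
    have h1 : a ≤ v := S.min'_le v hv
    refine ⟨h1, ?_⟩
    rw [hS, mem_filter, Nat.div_eq_iff hp] at hv haS
    have h2 : 2 ^ J * v < 2 ^ J * a + p := by omega
    have h3 : (v - a) * 2 ^ J ≤ p := by
      zify [h1] at h2 ⊢
      nlinarith
    have h4 : v - a ≤ p / 2 ^ J := (Nat.le_div_iff_mul_le (by positivity)).2 h3
    generalize p / 2 ^ J = d at h4 ⊢
    omega
  have hc := Finset.card_le_card hsub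
  rw [Nat.card_Ico] at hc
  have hc' : S.card ≤ p / 2 ^ J + 1 := by
    generalize p / 2 ^ J = d at hc ⊢
    omega
  calc 2 ^ J * S.card ≤ 2 ^ J * (p / 2 ^ J + 1) := Nat.mul_le_mul_left _ hc'
    _ = 2 ^ J * (p / 2 ^ J) + 2 ^ J := by ring
    _ ≤ p + 2 ^ J := by
      have := Nat.mul_div_le p (2 ^ J)
      omega

lemma sum_G_sq_le (ε : ℤ) (hε : ε ^ 2 = 1) (p : ℕ) (hp : 0 < p) (J : ℕ) :
    ∑ v ∈ range p, (∑ j ∈ range J, ε ^ j * r p (2 ^ j * v % p)) ^ 2 ≤ J * (p + 2 ^ J) := by
  have h1 : ∑ v ∈ range p, (∑ j ∈ range J, ε ^ j * r p (2 ^ j * v % p)) ^ 2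
      = ∑ t ∈ range (2 ^ J), ∑ v ∈ (range p).filter (fun v => 2 ^ J * v / p = t),
          (G ε J t) ^ 2 := by
    rw [← Finset.sum_fiberwise_of_maps_to (g := fun v => 2 ^ J * v / p) (t := range (2 ^ J))]
    · apply sum_congr rfl
      intro t _
      apply sum_congr rfl
      intro v hv
      rw [mem_filter] at hv
      rw [← G_eq ε p hp v J, hv.2]
    · intro v hv
      rw [mem_range] at hv ⊢
      rw [Nat.div_lt_iff_lt_mul hp]
      exact Nat.mul_lt_mul_of_pos_left hv (by positivity)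
  rw [h1]
  have h2 : ∀ t ∈ range (2 ^ J), (2 : ℤ) ^ J * ∑ v ∈ (range p).filter (fun v => 2 ^ J * v / p = t),
      (G ε J t) ^ 2 ≤ (p + 2 ^ J) * (G ε J t) ^ 2 := by
    intro t _
    rw [sum_const, nsmul_eq_mul, ← mul_assoc]
    apply mul_le_mul_of_nonneg_right _ (sq_nonneg _)
    exact_mod_cast fiber_card p J t
  have h3 := Finset.sum_le_sum h2
  rw [← mul_sum, ← mul_sum, G_sq ε hε] at h3
  have h4 : (0 : ℤ) < 2 ^ J := by positivity
  nlinarith

lemma sum_zmod (p : ℕ) [NeZero p] (f : ℕ → ℤ) :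
    ∑ x : ZMod p, f x.val = ∑ v ∈ range p, f v := by
  rw [← Fin.sum_univ_eq_sum_range]
  obtain ⟨n, rfl⟩ : ∃ n, p = n + 1 := ⟨p - 1, by have := NeZero.pos p; omega⟩
  rfl

/-- The Jacobi symbol as a function on `ZMod p`. -/
def chi (p : ℕ) (x : ZMod p) : ℤ := jacobiSym (x.val : ℤ) p

lemma chi_mul (p : ℕ) [NeZero p] (x y : ZMod p) : chi p (x * y) = chi p x * chi p y := by
  unfold chi
  rw [← jacobiSym.mul_left, ZMod.val_mul]
  push_cast
  rw [← jacobiSym.mod_left]

lemma chi_sq (p : ℕ) [NeZero p] (x : ZMod p) :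
    chi p x ^ 2 = if Nat.Coprime x.val p then 1 else 0 := by
  unfold chi
  split_ifs with h
  · apply jacobiSym.sq_one
    rw [Int.gcd_natCast_natCast]
    exact h
  · have : jacobiSym (x.val : ℤ) p = 0 := by
      rw [jacobiSym.eq_zero_iff_not_coprime, Int.gcd_natCast_natCast]
      exact h
    rw [this]; simp

lemma sum_chi_sq (p : ℕ) [NeZero p] : ∑ x : ZMod p, chi p x ^ 2 = (Nat.totient p : ℤ) := by
  simp only [chi_sq]
  rw [sum_zmod p (fun v => if Nat.Coprime v p then (1 : ℤ) else 0)]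
  rw [Finset.sum_boole, Nat.totient]
  congr 2
  ext v
  simp [Nat.coprime_comm]

/-- The signed half-interval character sum. -/
def D (p : ℕ) [NeZero p] : ℤ := ∑ x : ZMod p, chi p x * r p x.val

lemma D_bound (p : ℕ) [NeZero p] (hodd : Odd p) (J : ℕ) (hJ : 0 < J) :
    (J : ℤ) * D p ^ 2 ≤ Nat.totient p * (p + 2 ^ J) := by
  have hp : 0 < p := NeZero.pos p
  have hcop : Nat.Coprime 2 p := by
    rw [Nat.coprime_two_left]; exact hodd
  set ε : ℤ := chi p (2 : ZMod p) with hεdef
  have hu : ∀ j : ℕ, IsUnit ((2 : ZMod p) ^ j) := by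
    intro j
    apply IsUnit.pow
    have := (ZMod.isUnit_iff_coprime 2 p).2 hcop
    simpa using this
  have hε : ε ^ 2 = 1 := by
    rw [hεdef, chi_sq]
    have : Nat.Coprime (2 : ZMod p).val p := by
      have h2 : ((2 : ℕ) : ZMod p) = 2 := by norm_num
      rw [← h2, ZMod.val_natCast]
      rw [← ZMod.isUnit_iff_coprime]
      rw [ZMod.natCast_mod, ZMod.isUnit_iff_coprime]
      exact hcop
    rw [if_pos this]
  have hpow : ∀ j : ℕ, chi p ((2 : ZMod p) ^ j) = ε ^ j := by
    intro j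
    induction j with
    | zero =>
      simp only [pow_zero]
      have : chi p (1 : ZMod p) * chi p (1 : ZMod p) = chi p (1 : ZMod p) := by
        rw [← chi_mul]; simp
      have hne : chi p (1 : ZMod p) ≠ 0 := by
        intro h0
        have h1 : ε = 0 := by
          rw [hεdef, ← one_mul (2 : ZMod p), chi_mul, h0, zero_mul]
        rw [h1] at hε; norm_num at hε
      exact mul_right_cancel₀ hne (by rw [this, one_mul])
    | succ j ih => rw [pow_succ, chi_mul, ih, pow_succ]
  have hshift : ∀ j : ℕ, ∑ x : ZMod p, chi p x * r p ((2 : ZMod p) ^ j * x).val = ε ^ j * D p := by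
    intro j
    have h1 : ε ^ j * (∑ x : ZMod p, chi p x * r p ((2 : ZMod p) ^ j * x).val) = D p := by
      rw [mul_sum, D]
      obtain ⟨u, hu'⟩ := hu j
      rw [← Equiv.sum_comp (Units.mulLeft u) (fun x => chi p x * r p x.val)]
      apply sum_congr rfl
      intro x _
      simp only [Units.mulLeft_apply, hu']
      rw [chi_mul, hpow]
      ring
    have h2 : (ε ^ j) ^ 2 = 1 := by
      rw [← pow_mul, mul_comm, pow_mul, hε, one_pow]
    rw [← h1, ← mul_assoc, ← sq, h2, one_mul]
  have hval : ∀ (j : ℕ) (x : ZMod p), ((2 : ZMod p) ^ j * x).val = 2 ^ j * x.val % p := by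
    intro j x
    have : (2 : ZMod p) ^ j * x = ((2 ^ j * x.val : ℕ) : ZMod p) := by
      push_cast
      rw [ZMod.natCast_zmod_val]
    rw [this, ZMod.val_natCast]
  have hJD : (J : ℤ) * D p = ∑ x : ZMod p, chi p x *
      (∑ j ∈ range J, ε ^ j * r p (2 ^ j * x.val % p)) := by
    simp_rw [mul_sum]
    rw [sum_comm]
    have : ∀ j ∈ range J, ∑ x : ZMod p, chi p x * (ε ^ j * r p (2 ^ j * x.val % p)) = D p := by
      intro j _
      have h2 : (ε ^ j) ^ 2 = 1 := by
        rw [← pow_mul, mul_comm, pow_mul, hε, one_pow]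
      calc ∑ x : ZMod p, chi p x * (ε ^ j * r p (2 ^ j * x.val % p))
          = ε ^ j * ∑ x : ZMod p, chi p x * r p ((2 : ZMod p) ^ j * x).val := by
            rw [mul_sum]
            apply sum_congr rfl
            intro x _
            rw [hval]
            ring
        _ = D p := by rw [hshift, ← mul_assoc, ← sq, h2, one_mul]
    rw [sum_congr rfl this]
    simp
  have hCS := Finset.sum_mul_sq_le_sq_mul_sq (univ : Finset (ZMod p)) (fun x => chi p x)
    (fun x => ∑ j ∈ range J, ε ^ j * r p (2 ^ j * x.val % p))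
  rw [← hJD, sum_chi_sq,
    sum_zmod p (fun v => (∑ j ∈ range J, ε ^ j * r p (2 ^ j * v % p)) ^ 2)] at hCS
  have hG := sum_G_sq_le ε hε p hp J
  have h5 : ((J : ℤ) * D p) ^ 2 ≤ Nat.totient p * (J * (p + 2 ^ J)) :=
    hCS.trans (mul_le_mul_of_nonneg_left hG (by positivity))
  have hJ' : (0 : ℤ) < J := by exact_mod_cast hJ
  have h6 : (J : ℤ) * (J * D p ^ 2) ≤ J * (Nat.totient p * (p + 2 ^ J)) := by
    nlinarith
  exact le_of_mul_le_mul_left h6 hJ'

lemma card_odd_lt (S : Finset ℕ) (hS : ∀ x ∈ S, 3 ≤ x ∧ Odd x) (a : ℕ) (ha : Odd a)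
    (h3 : 3 ≤ a) (hlt : ∀ x ∈ S, x < a) : 2 * S.card + 3 ≤ a := by
  have himg : S.image (fun x => x / 2) ⊆ Finset.Ico 1 (a / 2) := by
    intro y hy
    rw [mem_image] at hy
    obtain ⟨x, hx, rfl⟩ := hy
    have h1 := hS x hx
    have h2 := hlt x hx
    obtain ⟨h1a, k, hk⟩ := h1
    obtain ⟨l, hl⟩ := ha
    rw [mem_Ico]
    omega
  have hinj : Set.InjOn (fun x => x / 2) (S : Set ℕ) := by
    intro x hx y hy hxy
    obtain ⟨_, k, hk⟩ := hS x hx
    obtain ⟨_, l, hl⟩ := hS y hy
    simp only at hxy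
    omega
  have hc := Finset.card_le_card himg
  rw [Finset.card_image_of_injOn hinj, Nat.card_Ico] at hc
  obtain ⟨l, hl⟩ := ha
  omega

lemma prod_bound (S : Finset ℕ) (hS : ∀ x ∈ S, 3 ≤ x ∧ Odd x) :
    (1 : ℚ) ≤ (2 * S.card + 1) * (∏ q ∈ S, (1 - (q : ℚ)⁻¹)) ^ 2 := by
  induction S using Finset.induction_on_max with
  | empty => simp
  | insert a S hlt ih =>
    have hS' : ∀ x ∈ S, 3 ≤ x ∧ Odd x := fun x hx => hS x (mem_insert_of_mem hx)
    have haS := hS a (mem_insert_self a S)
    have hnot : a ∉ S := fun h => lt_irrefl _ (hlt a h)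
    have h1 := card_odd_lt S hS' a haS.2 haS.1 hlt
    rw [card_insert_of_notMem hnot, prod_insert hnot]
    have ih' := ih hS'
    set k := S.card
    set P := ∏ q ∈ S, (1 - (q : ℚ)⁻¹)
    have ha : (2 * (k : ℚ) + 3) ≤ a := by exact_mod_cast h1
    have hk : (0 : ℚ) ≤ k := by positivity
    have hapos : (0 : ℚ) < a := by linarith
    have h2 : (2 * (k : ℚ) + 1) ≤ (2 * (k : ℚ) + 3) * (1 - (a : ℚ)⁻¹) ^ 2 := by
      have h3 : (a : ℚ)⁻¹ ≤ (2 * (k : ℚ) + 3)⁻¹ := by
        apply inv_anti₀ (by linarith) ha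
      have h4 : 1 - (2 * (k : ℚ) + 3)⁻¹ ≤ 1 - (a : ℚ)⁻¹ := by linarith
      have h5 : 0 ≤ 1 - (2 * (k : ℚ) + 3)⁻¹ := by
        have : (2 * (k : ℚ) + 3)⁻¹ ≤ 1 := by
          apply inv_le_one_of_one_le₀; linarith
        linarith
      have h6 : (1 - (2 * (k : ℚ) + 3)⁻¹) ^ 2 ≤ (1 - (a : ℚ)⁻¹) ^ 2 := by
        apply pow_le_pow_left₀ h5 h4
      have h7 : (2 * (k : ℚ) + 1) ≤ (2 * (k : ℚ) + 3) * (1 - (2 * (k : ℚ) + 3)⁻¹) ^ 2 := by
        have h8 : (2 * (k : ℚ) + 3) ≠ 0 := by positivity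
        have h9 : (2 * (k : ℚ) + 3) * (1 - (2 * (k : ℚ) + 3)⁻¹) ^ 2
            = (2 * k + 2) ^ 2 / (2 * k + 3) := by
          field_simp
          ring
        rw [h9, le_div_iff₀ (by positivity)]
        nlinarith
      have h10 : (0 : ℚ) ≤ 2 * (k : ℚ) + 3 := by positivity
      nlinarith
    push_cast
    have hP : 0 ≤ P ^ 2 := sq_nonneg _
    calc (1 : ℚ) ≤ (2 * k + 1) * P ^ 2 := ih'
      _ ≤ ((2 * (k : ℚ) + 3) * (1 - (a : ℚ)⁻¹) ^ 2) * P ^ 2 := by
        apply mul_le_mul_of_nonneg_right h2 hP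
      _ = _ := by ring

lemma totient_bound (p : ℕ) (hodd : Odd p) :
    p ^ 2 ≤ (2 * p.primeFactors.card + 1) * (Nat.totient p) ^ 2 := by
  have hS : ∀ x ∈ p.primeFactors, 3 ≤ x ∧ Odd x := by
    intro x hx
    have hxp := Nat.prime_of_mem_primeFactors hx
    have hdvd := Nat.dvd_of_mem_primeFactors hx
    have hxo : Odd x := Odd.of_dvd_nat hodd hdvd
    refine ⟨?_, hxo⟩
    have := hxp.two_le
    obtain ⟨k, hk⟩ := hxo
    omega
  have h1 := prod_bound p.primeFactors hS
  have h2 := Nat.totient_eq_mul_prod_factors p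
  have h3 : ((p : ℚ)) ^ 2 ≤ (2 * p.primeFactors.card + 1) * (Nat.totient p : ℚ) ^ 2 := by
    rw [h2]
    have hp2 : (0 : ℚ) ≤ (p : ℚ) ^ 2 := by positivity
    calc (p : ℚ) ^ 2 = (p : ℚ) ^ 2 * 1 := by ring
      _ ≤ (p : ℚ) ^ 2 * ((2 * p.primeFactors.card + 1) *
            (∏ q ∈ p.primeFactors, (1 - (q : ℚ)⁻¹)) ^ 2) := by
          apply mul_le_mul_of_nonneg_left h1 hp2
      _ = _ := by ring
  exact_mod_cast h3

lemma omega_le_log (p : ℕ) (hp : 0 < p) : p.primeFactors.card ≤ Nat.log 2 p := by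
  apply Nat.le_log_of_pow_le (by norm_num)
  calc 2 ^ p.primeFactors.card ≤ ∏ q ∈ p.primeFactors, q := by
        apply Finset.pow_card_le_prod
        intro q hq
        exact (Nat.prime_of_mem_primeFactors hq).two_le
    _ ≤ p := Nat.le_of_dvd hp (Nat.prod_primeFactors_dvd p)

lemma cfVal_nonneg (c : List ℕ) : 0 ≤ cfVal c := by
  induction c with
  | nil => simp [cfVal]
  | cons a t ih => simp only [cfVal]; positivity

lemma cfVal_one_lt (c : List ℕ) (hne : c ≠ []) (hpos : ∀ x ∈ c, 0 < x)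
    (hlast : 1 < c.getLast hne) : 1 < cfVal c := by
  cases c with
  | nil => exact absurd rfl hne
  | cons a t =>
    cases t with
    | nil =>
      simp only [cfVal, List.getLast_singleton] at hlast ⊢
      simp only [inv_zero, add_zero]
      exact_mod_cast hlast
    | cons b s =>
      have ha : (1 : ℚ) ≤ a := by exact_mod_cast hpos a (by simp)
      have hb : (0 : ℚ) < b := by exact_mod_cast hpos b (by simp)
      have h1 : 0 < cfVal (b :: s) := by
        simp only [cfVal]
        have := cfVal_nonneg s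
        positivity
      have h2 : 0 < (cfVal (b :: s))⁻¹ := by positivity
      show (1 : ℚ) < (a : ℚ) + (cfVal (b :: s))⁻¹
      linarith

/-- the tail of an expansion -/
lemma IsExpansion.tail {p n a b : ℕ} {s : List ℕ} (hn : 0 < n)
    (h : IsExpansion p n (a :: b :: s)) :
    a * n < p ∧ p - a * n < n ∧ IsExpansion n (p - a * n) (b :: s) := by
  have hlast : 1 < (b :: s).getLast (by simp) := by
    have := h.last
    rwa [List.getLast_cons (by simp)] at this
  have hpos : ∀ x ∈ b :: s, 0 < x := fun x hx => h.pos x (List.mem_cons_of_mem _ hx)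
  have hv1 := cfVal_one_lt (b :: s) (by simp) hpos hlast
  have hval : (a : ℚ) + (cfVal (b :: s))⁻¹ = (p : ℚ) / n := h.val
  have hn' : (0 : ℚ) < n := by exact_mod_cast hn
  have hv0 : 0 < cfVal (b :: s) := by linarith
  have hinv : (cfVal (b :: s))⁻¹ = ((p : ℚ) - a * n) / n := by
    field_simp at hval ⊢
    linarith
  have h1 : (0 : ℚ) < ((p : ℚ) - a * n) / n := by rw [← hinv]; positivity
  have h2 : (0 : ℚ) < (p : ℚ) - a * n := by
    have := mul_pos h1 hn'
    rwa [div_mul_cancel₀ _ hn'.ne'] at this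
  have h3 : a * n < p := by
    have : ((a * n : ℕ) : ℚ) < (p : ℚ) := by push_cast; linarith
    exact_mod_cast this
  have h4 : ((p : ℚ) - a * n) / n < 1 := by
    rw [← hinv]; exact inv_lt_one_of_one_lt₀ hv1
  have h5 : (p : ℚ) - a * n < n := by
    rwa [div_lt_one hn'] at h4
  have hcast : ((p - a * n : ℕ) : ℚ) = (p : ℚ) - a * n := by
    rw [Nat.cast_sub h3.le]; push_cast; ring
  refine ⟨h3, ?_, ?_⟩
  · have : ((p - a * n : ℕ) : ℚ) < (n : ℚ) := by rw [hcast]; exact h5
    exact_mod_cast this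
  · refine ⟨by simp, hpos, hlast, ?_⟩
    rw [hcast]
    have := congrArg (fun z : ℚ => z⁻¹) hinv
    simp only [inv_inv, inv_div] at this
    exact this

lemma expansion_det (c : List ℕ) : ∀ (p n : ℕ), 0 < n → Nat.Coprime p n → IsExpansion p n c →
    ∃ x y : ℕ, (p : ℤ) * y - n * x = (-1) ^ c.length ∧ 2 * x ≤ p ∧ 2 * y ≤ n := by
  induction c with
  | nil => intro p n _ _ h; exact absurd rfl h.ne_nil
  | cons a t ih =>
    intro p n hn hcop h
    cases t with
    | nil =>
      have hval : (a : ℚ) + (0 : ℚ)⁻¹ = (p : ℚ) / n := h.val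
      have hn' : (n : ℚ) ≠ 0 := by exact_mod_cast hn.ne'
      rw [inv_zero, add_zero, eq_div_iff hn'] at hval
      have hp : a * n = p := by exact_mod_cast hval
      have hn1 : n = 1 := by
        have h1 : Nat.gcd p n = n := Nat.gcd_eq_right (hp ▸ Dvd.intro_left a rfl)
        rw [Nat.Coprime] at hcop
        omega
      have hlast : 1 < a := by simpa using h.last
      subst hn1
      refine ⟨1, 0, by simp, by omega, by omega⟩
    | cons b s =>
      obtain ⟨h1, h2, h3⟩ := h.tail hn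
      have hcop' : Nat.Coprime n (p - a * n) := by
        rw [Nat.coprime_comm] at hcop
        rw [← Nat.coprime_add_mul_right_right n (p - a * n) a, Nat.sub_add_cancel h1.le]
        exact hcop
      obtain ⟨x, y, hxy, hx, hy⟩ := ih n (p - a * n) (by omega) hcop' h3
      refine ⟨a * x + y, x, ?_, ?_, ?_⟩
      · have hcast : ((p - a * n : ℕ) : ℤ) = (p : ℤ) - a * n := by
          rw [Nat.cast_sub h1.le]; push_cast; ring
        rw [hcast] at hxy
        rw [List.length_cons, pow_succ, ← hxy]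
        push_cast
        ring
      · have : 2 * (a * x) ≤ a * n := by nlinarith
        omega
      · omega

lemma expansion_exists (n : ℕ) : ∀ p : ℕ, 0 < n → n < p → ∃ c, IsExpansion p n c := by
  induction n using Nat.strong_induction_on with
  | _ n ih =>
    intro p hn hnp
    have hn' : (n : ℚ) ≠ 0 := by exact_mod_cast hn.ne'
    have hdm := Nat.div_add_mod p n
    have hq : 0 < p / n := Nat.div_pos hnp.le hn
    rcases Nat.eq_zero_or_pos (p % n) with h0 | h0
    · refine ⟨[p / n], by simp, ?_, ?_, ?_⟩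
      · intro x hx
        rw [List.mem_singleton] at hx
        rw [hx]; exact hq
      · simp only [List.getLast_singleton]
        by_contra hcon
        have : p / n = 1 := by omega
        rw [this, h0] at hdm
        omega
      · show ((p / n : ℕ) : ℚ) + (0 : ℚ)⁻¹ = p / n
        rw [inv_zero, add_zero, eq_div_iff hn']
        rw [h0] at hdm
        have : p / n * n = p := by rw [mul_comm]; omega
        exact_mod_cast this
    · have hlt : p % n < n := Nat.mod_lt _ hn
      obtain ⟨t, ht⟩ := ih (p % n) hlt n h0 hlt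
      refine ⟨(p / n) :: t, by simp, ?_, ?_, ?_⟩
      · intro x hx
        rw [List.mem_cons] at hx
        rcases hx with rfl | hx
        · exact hq
        · exact ht.pos x hx
      · rw [List.getLast_cons ht.ne_nil]; exact ht.last
      · show ((p / n : ℕ) : ℚ) + (cfVal t)⁻¹ = p / n
        rw [ht.val, inv_div, eq_div_iff hn', add_mul, div_mul_cancel₀ _ hn']
        have : p / n * n + p % n = p := by rw [mul_comm]; omega
        exact_mod_cast this

lemma expansion_unique (c : List ℕ) : ∀ (p n : ℕ) (d : List ℕ), 0 < n →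
    IsExpansion p n c → IsExpansion p n d → c = d := by
  induction c with
  | nil => intro p n d _ h; exact absurd rfl h.ne_nil
  | cons a t ih =>
    intro p n d hn hc hd
    have hn' : (n : ℚ) ≠ 0 := by exact_mod_cast hn.ne'
    have hsingle : ∀ a : ℕ, IsExpansion p n [a] → a * n = p := by
      intro a h
      have hval : (a : ℚ) + (0 : ℚ)⁻¹ = (p : ℚ) / n := h.val
      rw [inv_zero, add_zero, eq_div_iff hn'] at hval
      exact_mod_cast hval
    cases d with
    | nil => exact absurd rfl hd.ne_nil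
    | cons a' t' =>
      cases t with
      | nil =>
        have h1 := hsingle a hc
        cases t' with
        | nil =>
          have h2 := hsingle a' hd
          have : a = a' := Nat.eq_of_mul_eq_mul_right hn (h1.trans h2.symm)
          rw [this]
        | cons b' s' =>
          obtain ⟨g1, g2, _⟩ := hd.tail hn
          exfalso
          rw [← h1] at g1 g2
          have : a' < a := Nat.lt_of_mul_lt_mul_right g1
          have h5 : (a' + 1) * n ≤ a * n := Nat.mul_le_mul_right _ this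
          rw [add_mul] at h5
          omega
      | cons b s =>
        obtain ⟨g1, g2, g3⟩ := hc.tail hn
        cases t' with
        | nil =>
          have h2 := hsingle a' hd
          exfalso
          rw [← h2] at g1 g2
          have : a < a' := Nat.lt_of_mul_lt_mul_right g1
          have h5 : (a + 1) * n ≤ a' * n := Nat.mul_le_mul_right _ this
          rw [add_mul] at h5
          omega
        | cons b' s' =>
          obtain ⟨k1, k2, k3⟩ := hd.tail hn
          have haa : a = a' := by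
            rcases lt_trichotomy a a' with h | h | h
            · have h5 : (a + 1) * n ≤ a' * n := Nat.mul_le_mul_right _ h
              rw [add_mul] at h5
              omega
            · exact h
            · have h5 : (a' + 1) * n ≤ a * n := Nat.mul_le_mul_right _ h
              rw [add_mul] at h5
              omega
          subst haa
          rw [ih n (p - a * n) (b' :: s') (by omega) g3 k3]

/-- parity of the length in terms of the inverse -/
lemma expansion_parity (p n : ℕ) [NeZero p] (hodd : Odd p) (hn : 0 < n) (hnp : n < p)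
    (hcop : Nat.Coprime p n) (c : List ℕ) (hc : IsExpansion p n c) :
    (-1 : ℤ) ^ c.length = - r p (((n : ZMod p))⁻¹).val := by
  obtain ⟨x, y, hxy, hx, hy⟩ := expansion_det c p n hn hcop hc
  have hxlt : 2 * x < p := by
    obtain ⟨k, hk⟩ := hodd
    omega
  have hz : ((p : ℤ) : ZMod p) = 0 := by simp
  have hcast := congrArg (fun z : ℤ => (z : ZMod p)) hxy
  push_cast at hcast
  rw [ZMod.natCast_self, zero_mul, zero_sub] at hcast
  have hninv : (n : ZMod p) * (n : ZMod p)⁻¹ = 1 := by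
    apply ZMod.coe_mul_inv_eq_one
    exact hcop.symm
  have key : ∀ w : ZMod p, (n : ZMod p) * w = 1 → (n : ZMod p)⁻¹ = w := by
    intro w hw
    calc (n : ZMod p)⁻¹ = (n : ZMod p)⁻¹ * ((n : ZMod p) * w) := by rw [hw, mul_one]
      _ = ((n : ZMod p) * (n : ZMod p)⁻¹) * w := by ring
      _ = w := by rw [hninv, one_mul]
  rcases Nat.even_or_odd c.length with hev | hod
  · rw [hev.neg_one_pow] at hcast hxy ⊢
    have hx0 : 0 < x := by
      rcases Nat.eq_zero_or_pos x with h0 | h0
      · exfalso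
        subst h0
        simp only [Nat.cast_zero, mul_zero, sub_zero] at hxy
        have := Int.eq_one_or_neg_one_of_mul_eq_one hxy
        omega
      · exact h0
    have h1 : (n : ZMod p)⁻¹ = ((p - x : ℕ) : ZMod p) := by
      apply key
      rw [Nat.cast_sub (by omega), ZMod.natCast_self, zero_sub, mul_neg]
      exact hcast
    rw [h1, ZMod.val_natCast, Nat.mod_eq_of_lt (by omega)]
    unfold r
    rw [if_neg (by omega)]
    norm_num
  · rw [hod.neg_one_pow] at hcast ⊢
    have h1 : (n : ZMod p)⁻¹ = ((x : ℕ) : ZMod p) := by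
      apply key
      linear_combination (-1 : ZMod p) * hcast
    rw [h1, ZMod.val_natCast, Nat.mod_eq_of_lt (by omega)]
    unfold r
    rw [if_pos (by omega)]

/-- The signed weight of `n`. -/
noncomputable def t (p n : ℕ) : ℤ := jacobiSym n p * r p ((n : ZMod p)⁻¹).val

lemma r_sq (p w : ℕ) : r p w ^ 2 = 1 := by
  unfold r; split_ifs <;> norm_num

lemma jac_sq_cop (p n : ℕ) (h : Nat.Coprime p n) : (jacobiSym n p) ^ 2 = 1 := by
  apply jacobiSym.sq_one
  rw [Int.gcd_natCast_natCast]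
  exact h.symm

lemma jac_zero (p n : ℕ) [NeZero p] (h : ¬ Nat.Coprime p n) : jacobiSym n p = 0 := by
  rw [jacobiSym.eq_zero_iff_not_coprime, Int.gcd_natCast_natCast]
  rwa [Nat.gcd_comm]

lemma M_eq (p : ℕ) [NeZero p] (hodd : Odd p) (hp1 : 1 < p) :
    M p = ((range p).filter (fun n => t p n = -1) : Finset ℕ) := by
  ext n
  simp only [M, Set.mem_ofPred_eq, coe_filter, mem_range]
  by_cases hcop : Nat.Coprime p n
  · have hj := jac_sq_cop p n hcop
    have hr := r_sq p ((n : ZMod p)⁻¹).val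
    have hn0 : 0 < n := by
      rcases Nat.eq_zero_or_pos n with h0 | h0
      · subst h0; rw [Nat.coprime_zero_right] at hcop; omega
      · exact h0
    constructor
    · rintro ⟨_, h2, c, hc, hjc⟩
      refine ⟨h2, ?_⟩
      rw [expansion_parity p n hodd hn0 h2 hcop c hc] at hjc
      unfold t
      rw [hjc]
      linear_combination -hr
    · rintro ⟨h2, ht⟩
      obtain ⟨c, hc⟩ := expansion_exists n p hn0 h2
      refine ⟨hn0, h2, c, hc, ?_⟩
      rw [expansion_parity p n hodd hn0 h2 hcop c hc]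
      unfold t at ht
      linear_combination (r p ((n : ZMod p)⁻¹).val) * ht - (jacobiSym n p) * hr
  · have h0 := jac_zero p n hcop
    constructor
    · rintro ⟨_, _, c, _, hjc⟩
      rw [h0] at hjc
      exact absurd hjc.symm (pow_ne_zero _ (by norm_num))
    · rintro ⟨_, ht⟩
      unfold t at ht
      rw [h0, zero_mul] at ht
      norm_num at ht

lemma Mbar_eq (p : ℕ) [NeZero p] (hodd : Odd p) (hp1 : 1 < p) :
    Mbar p = ((range p).filter (fun n => t p n = 1) : Finset ℕ) := by
  ext n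
  simp only [Mbar, Set.mem_ofPred_eq, coe_filter, mem_range]
  by_cases hcop : Nat.Coprime p n
  · have hj := jac_sq_cop p n hcop
    have hr := r_sq p ((n : ZMod p)⁻¹).val
    have hn0 : 0 < n := by
      rcases Nat.eq_zero_or_pos n with h0 | h0
      · subst h0; rw [Nat.coprime_zero_right] at hcop; omega
      · exact h0
    constructor
    · rintro ⟨_, h2, c, hc, hjc⟩
      refine ⟨h2, ?_⟩
      rw [pow_succ, expansion_parity p n hodd hn0 h2 hcop c hc] at hjc
      unfold t
      rw [hjc]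
      linear_combination hr
    · rintro ⟨h2, ht⟩
      obtain ⟨c, hc⟩ := expansion_exists n p hn0 h2
      refine ⟨hn0, h2, c, hc, ?_⟩
      rw [pow_succ, expansion_parity p n hodd hn0 h2 hcop c hc]
      unfold t at ht
      linear_combination (r p ((n : ZMod p)⁻¹).val) * ht - (jacobiSym n p) * hr
  · have h0 := jac_zero p n hcop
    constructor
    · rintro ⟨_, _, c, _, hjc⟩
      rw [h0] at hjc
      exact absurd hjc.symm (pow_ne_zero _ (by norm_num))
    · rintro ⟨_, ht⟩
      unfold t at ht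
      rw [h0, zero_mul] at ht
      norm_num at ht

lemma t_cases (p n : ℕ) [NeZero p] : t p n = 0 ∨ t p n = 1 ∨ t p n = -1 := by
  by_cases hcop : Nat.Coprime p n
  · have hj := jac_sq_cop p n hcop
    have hr := r_sq p ((n : ZMod p)⁻¹).val
    right
    have : (t p n) ^ 2 = 1 := by
      unfold t; rw [mul_pow, hj, hr, one_mul]
    rw [sq] at this
    exact mul_self_eq_one_iff.1 this
  · left
    unfold t; rw [jac_zero p n hcop, zero_mul]

lemma Nbar_sub_N (p : ℕ) [NeZero p] (hodd : Odd p) (hp1 : 1 < p) :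
    (Nbar p : ℤ) - N p = ∑ n ∈ range p, t p n := by
  unfold Nbar N
  rw [M_eq p hodd hp1, Mbar_eq p hodd hp1, Set.ncard_coe_finset, Set.ncard_coe_finset,
    ← Finset.sum_boole, ← Finset.sum_boole, ← Finset.sum_sub_distrib]
  apply sum_congr rfl
  intro n _
  rcases t_cases p n with h | h | h <;> rw [h] <;> norm_num

lemma Nbar_add_N (p : ℕ) [NeZero p] (hodd : Odd p) (hp1 : 1 < p) :
    (Nbar p : ℤ) + N p = ∑ n ∈ range p, (t p n) ^ 2 := by
  unfold Nbar N
  rw [M_eq p hodd hp1, Mbar_eq p hodd hp1, Set.ncard_coe_finset, Set.ncard_coe_finset,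
    ← Finset.sum_boole, ← Finset.sum_boole, ← Finset.sum_add_distrib]
  apply sum_congr rfl
  intro n _
  rcases t_cases p n with h | h | h <;> rw [h] <;> norm_num

lemma chi_one (p : ℕ) (hp1 : 1 < p) : chi p (1 : ZMod p) = 1 := by
  have : Fact (1 < p) := ⟨hp1⟩
  unfold chi
  rw [ZMod.val_one]
  simp

lemma sum_t (p : ℕ) [NeZero p] (hp1 : 1 < p) : ∑ n ∈ range p, t p n = D p := by
  have h1 : ∑ n ∈ range p, t p n = ∑ x : ZMod p, chi p x * r p (x⁻¹).val := by
    rw [← sum_zmod p (fun n => t p n)]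
    apply sum_congr rfl
    intro x _
    unfold t chi
    rw [ZMod.natCast_zmod_val]
  have h0 : ∀ x : ZMod p, ¬ IsUnit x → chi p x = 0 := by
    intro x hx
    unfold chi
    apply jac_zero p x.val
    intro hcop
    apply hx
    have := (ZMod.isUnit_iff_coprime x.val p).2 hcop.symm
    rwa [ZMod.natCast_zmod_val] at this
  have hu : ∀ g : ZMod p → ℤ, (∀ x, ¬ IsUnit x → g x = 0) →
      ∑ x : ZMod p, g x = ∑ u : (ZMod p)ˣ, g (u : ZMod p) := by
    intro g hg
    symm
    apply Finset.sum_of_injOn (fun u : (ZMod p)ˣ => (u : ZMod p))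
    · intro a _ b _ hab
      exact Units.ext hab
    · intro a _; simp
    · intro x _ hx
      apply hg
      intro hxu
      apply hx
      obtain ⟨u, hu⟩ := hxu
      exact ⟨u, by simp, hu⟩
    · intro u _; rfl
  rw [h1, D]
  rw [hu (fun x => chi p x * r p (x⁻¹).val) (fun x hx => by simp only [h0 x hx, zero_mul]),
    hu (fun x => chi p x * r p x.val) (fun x hx => by simp only [h0 x hx, zero_mul])]
  rw [← Equiv.sum_comp (Equiv.inv (ZMod p)ˣ)]
  apply sum_congr rfl
  intro u _
  simp only [Equiv.inv_apply]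
  have h2 : ((u⁻¹ : (ZMod p)ˣ) : ZMod p)⁻¹ = (u : ZMod p) := by
    rw [ZMod.inv_coe_unit, inv_inv]
  have h3 : chi p ((u⁻¹ : (ZMod p)ˣ) : ZMod p) = chi p (u : ZMod p) := by
    have h4 : chi p ((u⁻¹ : (ZMod p)ˣ) : ZMod p) * chi p (u : ZMod p) = 1 := by
      rw [← chi_mul, Units.inv_mul, chi_one p hp1]
    have h5 : chi p (u : ZMod p) ^ 2 = 1 := by
      rw [chi_sq]
      rw [if_pos]
      exact ZMod.val_coe_unit_coprime u
    calc chi p ((u⁻¹ : (ZMod p)ˣ) : ZMod p)
        = chi p ((u⁻¹ : (ZMod p)ˣ) : ZMod p) * chi p (u : ZMod p) ^ 2 := by rw [h5, mul_one]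
      _ = (chi p ((u⁻¹ : (ZMod p)ˣ) : ZMod p) * chi p (u : ZMod p)) * chi p (u : ZMod p) := by
          ring
      _ = chi p (u : ZMod p) := by rw [h4, one_mul]
  rw [h2, h3]

lemma sum_t_sq (p : ℕ) [NeZero p] : ∑ n ∈ range p, (t p n) ^ 2 = (Nat.totient p : ℤ) := by
  rw [← sum_chi_sq p]
  rw [← sum_zmod p (fun n => (t p n) ^ 2)]
  apply sum_congr rfl
  intro x _
  unfold t chi
  rw [mul_pow, r_sq, mul_one]

/-- quantitative bound -/
lemma D_pow_four (p : ℕ) [NeZero p] (hodd : Odd p) (hp1 : 1 < p) :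
    (Nat.log 2 p : ℤ) * D p ^ 4 ≤ 12 * (Nat.totient p : ℤ) ^ 4 := by
  set J := Nat.log 2 p with hJdef
  have hJ : 0 < J := Nat.log_pos (by norm_num) (by omega)
  have hp : 0 < p := by omega
  have h1 := D_bound p hodd J hJ
  have h2 : (2 : ℕ) ^ J ≤ p := Nat.pow_log_le_self 2 hp.ne'
  have h3 := totient_bound p hodd
  have h4 := omega_le_log p hp
  have h2' : (2 : ℤ) ^ J ≤ p := by exact_mod_cast h2
  have hφ : (0 : ℤ) ≤ Nat.totient p := by positivity
  set φ : ℤ := (Nat.totient p : ℤ) with hφdef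
  have h5 : (J : ℤ) * D p ^ 2 ≤ 2 * (φ * p) := by nlinarith
  have h6 : (p : ℤ) ^ 2 ≤ (2 * J + 1) * φ ^ 2 := by
    have h7 : p ^ 2 ≤ (2 * J + 1) * (Nat.totient p) ^ 2 :=
      h3.trans (Nat.mul_le_mul_right _ (by omega))
    rw [hφdef]
    exact_mod_cast h7
  have hJ' : (1 : ℤ) ≤ J := by exact_mod_cast hJ
  have h8 : (J : ℤ) ^ 2 * D p ^ 4 ≤ 4 * (φ ^ 2 * p ^ 2) := by
    have h9 : ((J : ℤ) * D p ^ 2) ^ 2 ≤ (2 * (φ * p)) ^ 2 := by
      apply pow_le_pow_left₀ (by positivity) h5
    calc (J : ℤ) ^ 2 * D p ^ 4 = ((J : ℤ) * D p ^ 2) ^ 2 := by ring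
      _ ≤ _ := h9
      _ = _ := by ring
  have h10 : (J : ℤ) ^ 2 * D p ^ 4 ≤ J * (12 * φ ^ 4) := by
    calc (J : ℤ) ^ 2 * D p ^ 4 ≤ 4 * (φ ^ 2 * p ^ 2) := h8
      _ ≤ 4 * (φ ^ 2 * ((2 * J + 1) * φ ^ 2)) := by
          apply mul_le_mul_of_nonneg_left _ (by norm_num)
          apply mul_le_mul_of_nonneg_left h6 (sq_nonneg _)
      _ = (2 * J + 1) * (4 * φ ^ 4) := by ring
      _ ≤ (3 * J) * (4 * φ ^ 4) := by
          apply mul_le_mul_of_nonneg_right (by linarith) (by positivity)
      _ = J * (12 * φ ^ 4) := by ring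
  have h11 : (J : ℤ) * (J * D p ^ 4) ≤ J * (12 * φ ^ 4) := by
    calc (J : ℤ) * (J * D p ^ 4) = (J : ℤ) ^ 2 * D p ^ 4 := by ring
      _ ≤ _ := h10
  exact le_of_mul_le_mul_left h11 (by linarith)

/-- Existence and uniqueness of the normalised expansion. -/
lemma existsUnique_expansion (p n : ℕ) (hn : 0 < n) (hnp : n < p) :
    ∃! c : List ℕ, IsExpansion p n c := by
  obtain ⟨c, hc⟩ := expansion_exists n p hn hnp
  exact ⟨c, hc, fun d hd => expansion_unique d p n c hn hd hc⟩

open Filter Topology in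
/-- **Answer to Rotkiewicz's question.**  As `p → ∞` through the odd integers,
`N(p) / N-bar(p) → 1`. -/
theorem result : Tendsto (fun p : ℕ => (N p : ℝ) / (Nbar p : ℝ))
    (atTop ⊓ 𝓟 {p : ℕ | Odd p}) (𝓝 1) := by
  -- the normalised difference
  let d : ℕ → ℝ := fun p => ((Nbar p : ℝ) - N p) / Nat.totient p
  have hbound : ∀ p : ℕ, Odd p → 1 < p → (d p) ^ 4 ≤ 12 / (Nat.log 2 p : ℝ) := by
    intro p hodd hp1
    have : NeZero p := ⟨by omega⟩
    have h1 := D_pow_four p hodd hp1
    have h2 : (Nbar p : ℤ) - N p = D p := by rw [Nbar_sub_N p hodd hp1, sum_t p hp1]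
    rw [← h2] at h1
    have h3 : (Nat.log 2 p : ℝ) * ((Nbar p : ℝ) - N p) ^ 4 ≤ 12 * (Nat.totient p : ℝ) ^ 4 := by
      exact_mod_cast h1
    have hJ : (0 : ℝ) < Nat.log 2 p := by
      exact_mod_cast Nat.log_pos (by norm_num) (by omega)
    have hφ : (0 : ℝ) < Nat.totient p := by
      exact_mod_cast Nat.totient_pos.2 (by omega)
    show (((Nbar p : ℝ) - N p) / Nat.totient p) ^ 4 ≤ 12 / (Nat.log 2 p : ℝ)
    rw [div_pow, div_le_div_iff₀ (by positivity) hJ]
    linarith
  have hlog : Tendsto (fun p : ℕ => 12 / (Nat.log 2 p : ℝ)) atTop (𝓝 0) := by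
    apply Tendsto.div_atTop tendsto_const_nhds
    apply tendsto_natCast_atTop_atTop.comp
    rw [tendsto_atTop_atTop]
    intro b
    exact ⟨2 ^ b, fun a ha => Nat.le_log_of_pow_le (by norm_num) ha⟩
  have hev : ∀ᶠ p : ℕ in atTop ⊓ 𝓟 {p : ℕ | Odd p}, Odd p ∧ 1 < p := by
    rw [eventually_inf_principal]
    filter_upwards [eventually_gt_atTop 1] with p hp hodd
    exact ⟨hodd, hp⟩
  have hd : Tendsto d (atTop ⊓ 𝓟 {p : ℕ | Odd p}) (𝓝 0) := by
    have hsq : Tendsto (fun p : ℕ => Real.sqrt (Real.sqrt (12 / (Nat.log 2 p : ℝ))))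
        (atTop ⊓ 𝓟 {p : ℕ | Odd p}) (𝓝 0) := by
      have h1 : Tendsto (fun p : ℕ => Real.sqrt (Real.sqrt (12 / (Nat.log 2 p : ℝ))))
          atTop (𝓝 (Real.sqrt (Real.sqrt 0))) :=
        ((Real.continuous_sqrt.comp Real.continuous_sqrt).tendsto 0).comp hlog
      rw [Real.sqrt_zero, Real.sqrt_zero] at h1
      exact h1.mono_left inf_le_left
    apply squeeze_zero_norm' _ hsq
    filter_upwards [hev] with p hp
    have h1 := hbound p hp.1 hp.2
    rw [Real.norm_eq_abs]
    apply Real.abs_le_sqrt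
    have h2 : ((d p) ^ 2) ^ 2 ≤ 12 / (Nat.log 2 p : ℝ) := by
      rw [← pow_mul]; exact h1
    exact (le_abs_self _).trans (Real.abs_le_sqrt h2)
  have hlim : Tendsto (fun p => (1 - d p) / (1 + d p)) (atTop ⊓ 𝓟 {p : ℕ | Odd p}) (𝓝 1) := by
    have h1 : Tendsto (fun p => (1 - d p) / (1 + d p)) (atTop ⊓ 𝓟 {p : ℕ | Odd p})
        (𝓝 ((1 - 0) / (1 + 0))) := by
      apply Tendsto.div
      · exact tendsto_const_nhds.sub hd
      · exact tendsto_const_nhds.add hd
      · norm_num
    simpa using h1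
  apply hlim.congr'
  filter_upwards [hev] with p hp
  obtain ⟨hodd, hp1⟩ := hp
  have : NeZero p := ⟨by omega⟩
  have hφ : (0 : ℝ) < Nat.totient p := by
    exact_mod_cast Nat.totient_pos.2 (by omega)
  have hs : (Nbar p : ℤ) + N p = Nat.totient p := by rw [Nbar_add_N p hodd hp1, sum_t_sq p]
  have hs' : (Nbar p : ℝ) + N p = Nat.totient p := by exact_mod_cast hs
  have e1 : 1 - d p = (2 / (Nat.totient p : ℝ)) * N p := by
    show 1 - ((Nbar p : ℝ) - N p) / Nat.totient p = _
    field_simp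
    linarith
  have e2 : 1 + d p = (2 / (Nat.totient p : ℝ)) * Nbar p := by
    show 1 + ((Nbar p : ℝ) - N p) / Nat.totient p = _
    field_simp
    linarith
  rw [e1, e2, mul_div_mul_left _ _ (by positivity)]

end Pool.Agent.Results.MP_7c82b6_nt.RotkiewiczLimit
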